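import Pool.Agent.H87.AX.Targets4
import Pool.Agent.H39.SN.HES

/-!
# Axially symmetric stationary harmonic maps: the weighted Hessian estimate (row HET)
-/

set_option autoImplicit false

open MeasureTheory Metric Set Filter Topology
open scoped ContDiff RealInnerProductSpace ENNReal

namespace Pool.Agent.H40.AX

open Pool.Agent.H87.SN Pool.Agent.H87.SH Pool.Agent.H87.AX Pool.Agent.H39.SN

theorem pf_HET (hLA3 : T_LA3) (hGBO : T_GBO) : T_HET := by
  clear hLA3
  intro d m U u w χ τ hU hρ hu hτ hτ0 hlap hw hw0 hgw hχ hχc hχs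
  set F : E (d + 2) → ℝ := fun x => nsq (fderiv ℝ u x) with hFdef
  set P : E (d + 2) → ℝ := fun x => χ x ^ 2 * (rho x ^ 2 * w x) with hPdef
  have hρ0 : ∀ x : E (d + 2), 0 ≤ rho x := fun x => Real.sqrt_nonneg _
  have hχ0 : ∀ x, x ∉ U → χ =ᶠ[𝓝 x] fun _ => 0 := fun x hx =>
    notMem_tsupport_iff_eventuallyEq.1 fun h => hx (hχs h)
  have hχz : ∀ x, x ∉ U → χ x = 0 := fun x hx => (hχ0 x hx).self_of_nhds
  -- continuity on U
  have cw : ContinuousOn w U := hw.continuousOn
  have cq : Continuous fun x : E (d + 2) => rho x ^ 2 := contDiff_q.continuous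
  have hu1 : ContDiffOn ℝ ∞ (fderiv ℝ u) U := hu.fderiv_of_isOpen hU (by simp)
  have hu2 : ContDiffOn ℝ ∞ (fderiv ℝ (fderiv ℝ u)) U := hu1.fderiv_of_isOpen hU (by simp)
  have cF : ContinuousOn F U := by
    rw [hFdef]
    unfold nsq
    refine continuousOn_finsetSum _ fun i _ => ?_
    exact ((hu1.continuousOn.clm_apply continuousOn_const).norm).pow 2
  have cl : ContinuousOn (lap u) U := by
    unfold lap
    refine continuousOn_finsetSum _ fun i _ => ?_
    exact (hu2.continuousOn.clm_apply continuousOn_const).clm_apply continuousOn_const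
  have cl2 : ContinuousOn (fun x => ‖lap u x‖ ^ 2) U := (cl.norm).pow 2
  have ch : ContinuousOn (hsq u) U := by
    unfold hsq
    refine continuousOn_finsetSum _ fun i _ => continuousOn_finsetSum _ fun j _ => ?_
    exact (((hu2.continuousOn.clm_apply continuousOn_const).clm_apply
      continuousOn_const).norm).pow 2
  have hP1 : ContDiff ℝ 1 P := by
    rw [contDiff_iff_contDiffAt]
    intro x
    by_cases hx : x ∈ U
    · exact (hχ.contDiffAt.pow 2).mul (contDiff_q.contDiffAt.mul
        (hw.contDiffAt (hU.mem_nhds hx)))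
    · have h2 : P =ᶠ[𝓝 x] fun _ => 0 := by
        filter_upwards [hχ0 x hx] with y hy
        rw [hPdef]
        simp only [hy]
        ring
      exact contDiffAt_const.congr_of_eventuallyEq h2
  have hχ2c : HasCompactSupport fun x => χ x ^ 2 := by
    have e : (fun x => χ x ^ 2) = fun x => χ x * χ x := by funext x; ring
    rw [e]
    exact hχc.mul_right
  have hχ2s : tsupport (fun x => χ x ^ 2) ⊆ tsupport χ := by
    have e : (fun x => χ x ^ 2) = fun x => χ x * χ x := by funext x; ring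
    rw [e]
    exact tsupport_mul_subset_left
  have hPc : HasCompactSupport P := hχ2c.mul_right
  have hPs : tsupport P ⊆ tsupport χ := by
    refine Subset.trans ?_ hχ2s
    exact tsupport_mul_subset_left
  have hP0 : ∀ x, 0 ≤ P x := by
    intro x
    by_cases hx : x ∈ U
    · have h4 := hw0 x hx
      rw [hPdef]
      positivity
    · rw [hPdef]
      simp only [hχz x hx]
      norm_num
  have cχ2 : Continuous fun x => χ x ^ 2 := hχ.continuous.pow 2
  have iA : Integrable fun x => P x * hsq u x :=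
    int_mul hU hP1.continuous hPc (hPs.trans hχs) ch
  have iL : Integrable fun x => P x * ‖lap u x‖ ^ 2 :=
    int_mul hU hP1.continuous hPc (hPs.trans hχs) cl2
  have cgχ : Continuous (gsq χ) := by
    unfold gsq nsq
    refine continuous_finsetSum _ fun i _ => ?_
    exact (((hχ.continuous_fderiv (by norm_num)).clm_apply continuous_const).norm).pow 2
  have hDχ0 : ∀ x, χ =ᶠ[𝓝 x] (fun _ => 0) → fderiv ℝ χ x = 0 := by
    intro x hx
    rw [hx.fderiv_eq]
    exact fderiv_const_apply _
  have hgχs : tsupport (gsq χ) ⊆ tsupport χ := by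
    refine closure_minimal ?_ (isClosed_tsupport _)
    intro x hx
    by_contra hne
    apply hx
    have h1 := hDχ0 x (notMem_tsupport_iff_eventuallyEq.1 hne)
    unfold gsq
    rw [h1]
    unfold nsq
    simp
  have iB : Integrable fun x =>
      (χ x ^ 2 + rho x ^ 2 * gsq χ x) * w x * nsq (fderiv ℝ u x) := by
    have e : (fun x => (χ x ^ 2 + rho x ^ 2 * gsq χ x) * w x * nsq (fderiv ℝ u x)) =
        fun x => χ x ^ 2 * (w x * F x) + gsq χ x * (rho x ^ 2 * w x * F x) := by
      funext x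
      rw [hFdef]
      ring
    rw [e]
    exact (int_mul hU cχ2 hχ2c (hχ2s.trans hχs) (cw.mul cF)).add
      (int_mul hU cgχ (hχc.of_isClosed_subset (isClosed_tsupport _) hgχs) (hgχs.trans hχs)
        ((cq.continuousOn.mul cw).mul cF))
  have iT : Integrable fun x => P x * τ x ^ 2 := by
    obtain ⟨C, hC⟩ := hPc.exists_bound_of_continuous hP1.continuous
    have h1 : IntegrableOn (fun x => P x * τ x ^ 2) U := by
      refine Integrable.bdd_mul (c := C) hτ.integrable_sq ?_ ?_
      · exact hP1.continuous.aestronglyMeasurable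
      · exact Filter.Eventually.of_forall hC
    have h2 : (fun x => P x * τ x ^ 2) = U.indicator fun x => P x * τ x ^ 2 := by
      funext x
      by_cases hx : x ∈ U
      · rw [indicator_of_mem hx]
      · rw [indicator_of_notMem hx]
        have h3 : P x = 0 := by
          rw [hPdef]
          simp only [hχz x hx]
          ring
        rw [h3, zero_mul]
    rw [h2]
    exact (integrable_indicator_iff hU.measurableSet).2 h1
  -- the pointwise inequality of the mixed term
  have hh0 : ∀ x, 0 ≤ hsq u x := fun x =>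
    Finset.sum_nonneg fun i _ => Finset.sum_nonneg fun j _ => by positivity
  have key : ∀ x, Real.sqrt (gsq P x) *
      (Real.sqrt (en u x) * (Real.sqrt (hsq u x) + ‖lap u x‖)) ≤
      1 / 2 * (P x * hsq u x) + 1 / 2 * (P x * ‖lap u x‖ ^ 2) +
        32 * ((χ x ^ 2 + rho x ^ 2 * gsq χ x) * w x * nsq (fderiv ℝ u x)) := by
    intro x
    by_cases hx : x ∈ U
    · have hw1 : DifferentiableAt ℝ w x :=
        (hw.contDiffAt (hU.mem_nhds hx)).differentiableAt (by norm_num)
      have hχ1 : DifferentiableAt ℝ χ x := hχ.contDiffAt.differentiableAt (by norm_num)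
      have hq1 : DifferentiableAt ℝ (fun y : E (d + 2) => rho y ^ 2) x :=
        (hasFDerivAt_q x).differentiableAt
      have hdP : fderiv ℝ P x = (χ x ^ 2 * rho x ^ 2) • fderiv ℝ w x +
          (χ x ^ 2 * w x) • fderiv ℝ (fun y : E (d + 2) => rho y ^ 2) x +
          (2 * χ x * (rho x ^ 2 * w x)) • fderiv ℝ χ x := by
        have h1 := (hχ1.hasFDerivAt.pow 2).mul (hq1.hasFDerivAt.mul hw1.hasFDerivAt)
        refine HasFDerivAt.fderiv (h1.congr_fderiv ?_)
        ext v
        simp
        ring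
      have h2 : rho x * ‖vec (fderiv ℝ w x)‖ ≤ 2 * w x := by
        have h3 := hgw x hx
        unfold gsq at h3
        rw [← norm_vec_sq] at h3
        have h4 := hw0 x hx
        have h5 : 0 ≤ rho x * ‖vec (fderiv ℝ w x)‖ := mul_nonneg (hρ0 x) (norm_nonneg _)
        by_contra hne
        push Not at hne
        nlinarith
      have hX : ‖vec (fderiv ℝ P x)‖ ≤
          |χ x| * rho x * w x * (4 * |χ x| + 2 * rho x * ‖vec (fderiv ℝ χ x)‖) := by
        rw [hdP, vec_add, vec_add, vec_smul, vec_smul, vec_smul]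
        refine (norm_add₃_le).trans ?_
        rw [norm_smul, norm_smul, norm_smul, norm_vec_q, Real.norm_eq_abs, Real.norm_eq_abs,
          Real.norm_eq_abs]
        have h4 := hw0 x hx
        have h5 := hρ0 x
        have e1 : |χ x ^ 2 * rho x ^ 2| = |χ x| ^ 2 * rho x ^ 2 := by
          rw [abs_mul, abs_pow, abs_pow, abs_of_nonneg h5]
        have e2 : |χ x ^ 2 * w x| = |χ x| ^ 2 * w x := by
          rw [abs_mul, abs_pow, abs_of_pos h4]
        have e3 : |2 * χ x * (rho x ^ 2 * w x)| = 2 * |χ x| * (rho x ^ 2 * w x) := by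
          rw [abs_mul, abs_mul, abs_mul, abs_pow, abs_of_pos h4, abs_of_nonneg h5, abs_two]
        rw [e1, e2, e3]
        have h6 : |χ x| ^ 2 * rho x ^ 2 * ‖vec (fderiv ℝ w x)‖ ≤
            |χ x| ^ 2 * rho x * (2 * w x) := by
          have h7 : 0 ≤ |χ x| ^ 2 * rho x := by positivity
          nlinarith
        nlinarith
      have hgs : Real.sqrt (gsq P x) = ‖vec (fderiv ℝ P x)‖ := by
        unfold gsq
        rw [← norm_vec_sq, Real.sqrt_sq (norm_nonneg _)]
      have hn0 : 0 ≤ nsq (fderiv ℝ u x) := nsq_nonneg _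
      have hy1 := young (hw0 x hx) hn0 (hh0 x) hX
      have hy2 := young (hw0 x hx) hn0 (sq_nonneg ‖lap u x‖) hX
      rw [Real.sqrt_sq (norm_nonneg _)] at hy2
      rw [norm_vec_sq] at hy1 hy2
      rw [hgs]
      unfold en gsq
      rw [hPdef]
      have h13 : 0 ≤ rho x ^ 2 * nsq (fderiv ℝ χ x) * w x * nsq (fderiv ℝ u x) := by
        have h4 := hw0 x hx
        have := nsq_nonneg (fderiv ℝ χ x)
        positivity
      show ‖vec (fderiv ℝ P x)‖ * (Real.sqrt (nsq (fderiv ℝ u x)) *
        (Real.sqrt (hsq u x) + ‖lap u x‖)) ≤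
        1 / 2 * (χ x ^ 2 * (rho x ^ 2 * w x) * hsq u x) +
          1 / 2 * (χ x ^ 2 * (rho x ^ 2 * w x) * ‖lap u x‖ ^ 2) +
          32 * ((χ x ^ 2 + rho x ^ 2 * nsq (fderiv ℝ χ x)) * w x * nsq (fderiv ℝ u x))
      nlinarith
    · have h1 : χ x = 0 := hχz x hx
      have h2 : P =ᶠ[𝓝 x] fun _ => 0 := by
        filter_upwards [hχ0 x hx] with y hy
        rw [hPdef]
        simp only [hy]
        ring
      have h3 : fderiv ℝ P x = 0 := by
        rw [h2.fderiv_eq]
        exact fderiv_const_apply _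
      have h4 : gsq χ x = 0 := by
        unfold gsq
        rw [hDχ0 x (hχ0 x hx)]
        unfold nsq
        simp
      have h6 : gsq P x = 0 := by
        unfold gsq
        rw [h3]
        unfold nsq
        simp
      have h5 : P x = 0 := h2.self_of_nhds
      rw [h6, h5, h1, h4]
      simp
  have hmix : ∫ x, Real.sqrt (gsq P x) *
      (Real.sqrt (en u x) * (Real.sqrt (hsq u x) + ‖lap u x‖)) ≤
      ∫ x, (1 / 2 * (P x * hsq u x) + 1 / 2 * (P x * ‖lap u x‖ ^ 2) +
        32 * ((χ x ^ 2 + rho x ^ 2 * gsq χ x) * w x * nsq (fderiv ℝ u x))) := by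
    refine integral_mono_of_nonneg ?_ ?_ ?_
    · refine Filter.Eventually.of_forall fun x => ?_
      exact mul_nonneg (Real.sqrt_nonneg _) (mul_nonneg (Real.sqrt_nonneg _)
        (add_nonneg (Real.sqrt_nonneg _) (norm_nonneg _)))
    · exact ((iA.const_mul _).add (iL.const_mul _)).add (iB.const_mul _)
    · exact Filter.Eventually.of_forall key
  have iAL : Integrable fun x => 1 / 2 * (P x * hsq u x) + 1 / 2 * (P x * ‖lap u x‖ ^ 2) :=
    (iA.const_mul _).add (iL.const_mul _)
  rw [integral_add iAL (iB.const_mul _),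
    integral_add (iA.const_mul _) (iL.const_mul _), integral_const_mul, integral_const_mul,
    integral_const_mul] at hmix
  have hmain := hGBO (d + 2) m U u P hU hu hP1 hPc (hPs.trans hχs) hP0
  -- the Laplacian
  have hL : ∫ x, P x * ‖lap u x‖ ^ 2 ≤
      ∫ x, (1 / 8 * ((χ x ^ 2 + rho x ^ 2 * gsq χ x) * w x * nsq (fderiv ℝ u x)) +
        P x * τ x ^ 2) := by
    refine integral_mono iL ((iB.const_mul _).add iT) ?_
    intro x
    by_cases hx : x ∈ U
    · have h8 := hlap x hx
      have h4 := hw0 x hx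
      have h12 : χ x ^ 2 * w x * (‖lap u x‖ ^ 2 * rho x ^ 2) ≤
          χ x ^ 2 * w x * (1 / 8 * nsq (fderiv ℝ u x) + rho x ^ 2 * τ x ^ 2) :=
        mul_le_mul_of_nonneg_left h8 (by positivity)
      have h13 : 0 ≤ rho x ^ 2 * gsq χ x * w x * nsq (fderiv ℝ u x) := by
        have h1 : 0 ≤ gsq χ x := nsq_nonneg (fderiv ℝ χ x)
        have h2 : 0 ≤ nsq (fderiv ℝ u x) := nsq_nonneg _
        positivity
      show χ x ^ 2 * (rho x ^ 2 * w x) * ‖lap u x‖ ^ 2 ≤
        1 / 8 * ((χ x ^ 2 + rho x ^ 2 * gsq χ x) * w x * nsq (fderiv ℝ u x)) +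
          χ x ^ 2 * (rho x ^ 2 * w x) * τ x ^ 2
      nlinarith
    · have h1 : χ x = 0 := hχz x hx
      have h4 : gsq χ x = 0 := by
        unfold gsq
        rw [hDχ0 x (hχ0 x hx)]
        unfold nsq
        simp
      show χ x ^ 2 * (rho x ^ 2 * w x) * ‖lap u x‖ ^ 2 ≤
        1 / 8 * ((χ x ^ 2 + rho x ^ 2 * gsq χ x) * w x * nsq (fderiv ℝ u x)) +
          χ x ^ 2 * (rho x ^ 2 * w x) * τ x ^ 2
      rw [h1, h4]
      simp
  rw [integral_add (iB.const_mul _) iT, integral_const_mul] at hL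
  have hB0 : 0 ≤ ∫ x, (χ x ^ 2 + rho x ^ 2 * gsq χ x) * w x * nsq (fderiv ℝ u x) := by
    refine integral_nonneg fun x => ?_
    show 0 ≤ (χ x ^ 2 + rho x ^ 2 * gsq χ x) * w x * nsq (fderiv ℝ u x)
    by_cases hx : x ∈ U
    · have h4 := hw0 x hx
      have h1 : 0 ≤ gsq χ x := nsq_nonneg (fderiv ℝ χ x)
      have h2 : 0 ≤ nsq (fderiv ℝ u x) := nsq_nonneg _
      positivity
    · have h1 : χ x = 0 := hχz x hx
      have h4 : gsq χ x = 0 := by
        unfold gsq
        rw [hDχ0 x (hχ0 x hx)]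
        unfold nsq
        simp
      rw [h1, h4]
      simp
  have hT0 : 0 ≤ ∫ x, P x * τ x ^ 2 :=
    integral_nonneg fun x => mul_nonneg (hP0 x) (sq_nonneg _)
  have e1 : ∫ x, χ x ^ 2 * rho x ^ 2 * w x * hsq u x = ∫ x, P x * hsq u x := by
    congr 1
    funext x
    show χ x ^ 2 * rho x ^ 2 * w x * hsq u x = χ x ^ 2 * (rho x ^ 2 * w x) * hsq u x
    ring
  have e2 : ∫ x, χ x ^ 2 * w x * rho x ^ 2 * τ x ^ 2 = ∫ x, P x * τ x ^ 2 := by
    congr 1
    funext x
    show χ x ^ 2 * w x * rho x ^ 2 * τ x ^ 2 = χ x ^ 2 * (rho x ^ 2 * w x) * τ x ^ 2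
    ring
  rw [e1, e2]
  linarith

end Pool.Agent.H40.AX
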